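import Pool.Agent.H606R4.NA.TaskTL

/-! Task TW of project H295-NA. -/

set_option autoImplicit false

open Finset Filter Topology

namespace Pool.Agent.H606R4.NA

open Pool.Agent.H295R3.NA

theorem cnt_mul_le {b m : ℕ} (hm : m ≠ 0) : cnt 4 m ≤ cnt 4 (2 ^ b * m) := by
  unfold cnt
  apply card_le_card
  intro q hq
  rw [mem_filter, Nat.mem_primeFactors] at hq
  obtain ⟨⟨hqp, hqm, -⟩, hq2, hq4⟩ := hq
  have hqne : q ≠ 2 := by
    rintro rfl
    norm_num at hq4
  rw [mem_filter, Nat.mem_primeFactors]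
  refine ⟨⟨hqp, hqm.mul_left _, by positivity⟩, fun h => hq2 ?_, hq4⟩
  have hcop : Nat.Coprime (q ^ 2) (2 ^ b) :=
    Nat.Coprime.pow _ _ ((Nat.coprime_primes hqp Nat.prime_two).2 hqne)
  exact hcop.dvd_of_dvd_mul_left h

theorem pow_val_le (b : ℕ) : (100 : ℝ) ^ padicValNat 2 (b + 1) ≤ ((b : ℝ) + 1) ^ 7 := by
  have h1 : 2 ^ padicValNat 2 (b + 1) ≤ b + 1 :=
    Nat.le_of_dvd (Nat.succ_pos b) pow_padicValNat_dvd
  have h2 : ((2 : ℝ) ^ padicValNat 2 (b + 1)) ≤ (b : ℝ) + 1 := by exact_mod_cast h1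
  calc (100 : ℝ) ^ padicValNat 2 (b + 1) ≤ 128 ^ padicValNat 2 (b + 1) :=
        pow_le_pow_left₀ (by norm_num) (by norm_num) _
    _ = (2 ^ padicValNat 2 (b + 1)) ^ 7 := by
        rw [← pow_mul, mul_comm, pow_mul]; norm_num
    _ ≤ ((b : ℝ) + 1) ^ 7 := pow_le_pow_left₀ (by positivity) h2 7

theorem summ : Summable (fun b : ℕ => ((b : ℝ) + 1) ^ 7 * (1 / 2 : ℝ) ^ b) := by
  have h := summable_pow_mul_geometric_of_norm_lt_one (R := ℝ) 7 (r := 1 / 2) (by
    rw [Real.norm_of_nonneg (by norm_num)]; norm_num)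
  have h2 := ((summable_nat_add_iff 1).2 h).mul_left 2
  refine h2.congr fun b => ?_
  push_cast
  rw [pow_succ]
  ring

theorem RS_mono {r a b : ℕ} (hab : a ≤ b) : RS r a ≤ RS r b := by
  unfold RS
  apply Finset.sum_le_sum_of_subset_of_nonneg
  · apply filter_subset_filter
    exact Icc_subset_Icc le_rfl hab
  · intro i _ _
    positivity

/-- decomposition of the count according to the power of two -/
theorem count_le (hF2 : F2) (x B : ℕ) :
    Nb (Bad 2) x ≤ ∑ b ∈ range B, Nb (fun m => cnt 4 m ≤ padicValNat 2 (b + 1)) (x / 2 ^ b) +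
      (x / 2 ^ B : ℕ) := by
  classical
  unfold Nb
  have hsub : (Icc 1 x).filter (fun n => Bad 2 n) ⊆
      (range B).biUnion (fun b => ((Icc 1 (x / 2 ^ b)).filter
        (fun m => cnt 4 m ≤ padicValNat 2 (b + 1))).image (fun m => 2 ^ b * m)) ∪
      (Icc 1 x).filter (fun n => 2 ^ B ∣ n) := by
    intro n hn
    rw [mem_filter, mem_Icc] at hn
    obtain ⟨⟨h1, h2⟩, hbad⟩ := hn
    rw [mem_union]
    have hn0 : n ≠ 0 := by omega
    have hdvd : 2 ^ padicValNat 2 n ∣ n := pow_padicValNat_dvd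
    rcases lt_or_ge (padicValNat 2 n) B with hB | hB
    · left
      rw [mem_biUnion]
      refine ⟨padicValNat 2 n, mem_range.2 hB, ?_⟩
      rw [mem_image]
      obtain ⟨m, hm⟩ := hdvd
      have hm0 : m ≠ 0 := by
        rintro rfl
        rw [mul_zero] at hm
        exact hn0 hm
      refine ⟨m, ?_, hm.symm⟩
      rw [mem_filter, mem_Icc]
      refine ⟨⟨Nat.one_le_iff_ne_zero.2 hm0, ?_⟩, ?_⟩
      · rw [Nat.le_div_iff_mul_le (by positivity), mul_comm, ← hm]
        exact h2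
      · have h3 := hF2 n h1
        unfold Bad at hbad
        have h4 : cnt 4 m ≤ cnt 4 (2 ^ padicValNat 2 n * m) := cnt_mul_le hm0
        rw [← hm] at h4
        omega
    · right
      rw [mem_filter, mem_Icc]
      exact ⟨⟨h1, h2⟩, (pow_dvd_pow 2 hB).trans hdvd⟩
  have h1 := (card_le_card hsub).trans (card_union_le _ _)
  rw [card_mult] at h1
  have h2 : ((range B).biUnion (fun b => ((Icc 1 (x / 2 ^ b)).filter
        (fun m => cnt 4 m ≤ padicValNat 2 (b + 1))).image (fun m => 2 ^ b * m))).card ≤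
      ∑ b ∈ range B, ((Icc 1 (x / 2 ^ b)).filter
        (fun m => cnt 4 m ≤ padicValNat 2 (b + 1))).card :=
    card_biUnion_le.trans (Finset.sum_le_sum fun b _ => card_image_le)
  have h3 := h1.trans (Nat.add_le_add_right h2 _)
  have h4 : (((Icc 1 x).filter (fun n => Bad 2 n)).card : ℝ) ≤
      ((∑ b ∈ range B, ((Icc 1 (x / 2 ^ b)).filter
        (fun m => cnt 4 m ≤ padicValNat 2 (b + 1))).card + x / 2 ^ B : ℕ) : ℝ) := by
    exact_mod_cast h3
  refine h4.trans (le_of_eq ?_)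
  push_cast
  rfl

theorem LL_sqrt {x s : ℕ} (hs : s = Nat.sqrt x) (hs3 : 3 ≤ s) : LL x - Real.log 4 ≤ LL s := by
  have h1 : x < (s + 1) * (s + 1) := by rw [hs]; exact Nat.lt_succ_sqrt x
  have h2 : x ≤ s ^ 4 := by
    have h3 : s + 1 ≤ s * s := by nlinarith
    calc x ≤ (s + 1) * (s + 1) := h1.le
      _ ≤ (s * s) * (s * s) := Nat.mul_le_mul h3 h3
      _ = s ^ 4 := by ring
  have h4 : s * s ≤ x := by rw [hs]; exact Nat.sqrt_le x
  have hx3 : 9 ≤ x := by nlinarith
  have hx0 : (0 : ℝ) < x := by exact_mod_cast (by omega : 0 < x)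
  have h5 : Real.log x ≤ 4 * Real.log s := by
    have := Real.log_le_log hx0 (by exact_mod_cast h2 : (x : ℝ) ≤ (s : ℝ) ^ 4)
    rw [Real.log_pow] at this
    exact_mod_cast this
  have h6 : 0 < Real.log x := Real.log_pos (by exact_mod_cast (by omega : 1 < x))
  have h7 : 0 < Real.log s := Real.log_pos (by exact_mod_cast (by omega : 1 < s))
  unfold LL
  have h8 := Real.log_le_log h6 h5
  rw [Real.log_mul (by norm_num) h7.ne'] at h8
  linarith

theorem taskTW : TaskTW := by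
  rintro ⟨C, hC, hRK⟩ ⟨C', x0, hC', hMAP⟩ hF2
  set S : ℝ := ∑' b : ℕ, ((b : ℝ) + 1) ^ 7 * (1 / 2 : ℝ) ^ b with hS
  have hS0 : 0 ≤ S := tsum_nonneg fun b => by positivity
  set A : ℝ := (99 / 100) * (Real.log 4 / 2 + C') with hA
  -- eventually conditions
  have hlim1 : Tendsto (fun x : ℕ => LL x) atTop atTop :=
    Real.tendsto_log_atTop.comp (Real.tendsto_log_atTop.comp tendsto_natCast_atTop_atTop)
  have hsq : Tendsto Nat.sqrt atTop atTop := by
    refine tendsto_atTop.2 fun b => ?_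
    filter_upwards [eventually_ge_atTop (b * b)] with x hx
    exact Nat.le_sqrt.2 hx
  have hev : ∀ᶠ x : ℕ in atTop, 0 ≤ LL x ∧ x0 ≤ Nat.sqrt x ∧ 3 ≤ Nat.sqrt x ∧
      (1 : ℝ) ≤ LL (Nat.sqrt x) := by
    filter_upwards [hlim1.eventually_ge_atTop 0, hsq.eventually_ge_atTop x0,
      hsq.eventually_ge_atTop 3, (hlim1.comp hsq).eventually_ge_atTop 1] with x h1 h2 h3 h4
    exact ⟨h1, h2, h3, h4⟩
  obtain ⟨X, hX⟩ := eventually_atTop.1 hev
  refine ⟨C * S * Real.exp A + 4, X, by positivity, fun x hx => ?_⟩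
  obtain ⟨hLL0, hsx0, hs3, hLs⟩ := hX x hx
  obtain ⟨s, hs⟩ : ∃ s, s = Nat.sqrt x := ⟨_, rfl⟩
  rw [← hs] at hsx0 hs3 hLs
  have hss : s * s ≤ x := by rw [hs]; exact Nat.sqrt_le x
  have hxs : x < (s + 1) * (s + 1) := by rw [hs]; exact Nat.lt_succ_sqrt x
  have hx0R : (0 : ℝ) < x := by
    have : 0 < x := by nlinarith
    exact_mod_cast this
  have hLLs := LL_sqrt hs hs3
  have hRS : LL s / 2 - C' ≤ RS 4 s := by
    have h := hMAP s hsx0 4 (Or.inr rfl) (by push_cast; linarith)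
    have h4 : (Nat.totient 4 : ℝ) = 2 := by
      have : Nat.totient 4 = 2 := by decide
      rw [this]; norm_num
    rw [h4] at h
    have := (abs_le.1 h).1
    linarith
  obtain ⟨B, hB⟩ : ∃ B, B = Nat.log 2 s + 1 := ⟨_, rfl⟩
  refine (count_le hF2 x B).trans ?_
  -- the tail
  have htail : ((x / 2 ^ B : ℕ) : ℝ) ≤ 4 * x * Real.exp (-(49 / 100) * LL x) := by
    have h1 : s < 2 ^ B := by rw [hB]; exact Nat.lt_pow_succ_log_self (by norm_num) s
    have h2 : x / 2 ^ B ≤ s + 1 := by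
      calc x / 2 ^ B ≤ x / (s + 1) := Nat.div_le_div_left (by omega) (by omega)
        _ ≤ ((s + 1) * (s + 1)) / (s + 1) := Nat.div_le_div_right hxs.le
        _ = s + 1 := Nat.mul_div_cancel_left _ (by omega)
    have h3 : ((x / 2 ^ B : ℕ) : ℝ) ≤ (s : ℝ) + 1 := by exact_mod_cast h2
    have hsq1 : (s : ℝ) ≤ √(x : ℝ) := by
      apply Real.le_sqrt_of_sq_le
      have : (s : ℝ) * s ≤ x := by exact_mod_cast hss
      nlinarith
    have h4 : (1 : ℝ) ≤ s := by exact_mod_cast (by omega : 1 ≤ s)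
    have hsx : √(x : ℝ) * √(x : ℝ) = x := Real.mul_self_sqrt hx0R.le
    have hq0 : 0 < √(x : ℝ) := Real.sqrt_pos.2 hx0R
    have hlog : Real.log x ≤ 2 * √(x : ℝ) := by
      have h5 : Real.log √(x : ℝ) ≤ √(x : ℝ) - 1 := Real.log_le_sub_one_of_pos hq0
      have h6 : Real.log √(x : ℝ) = Real.log x / 2 := Real.log_sqrt hx0R.le
      linarith
    have hlogpos : 0 < Real.log x := Real.log_pos (by
      have : 1 < x := by nlinarith
      exact_mod_cast this)
    have hexp : Real.exp (LL x) = Real.log x := Real.exp_log hlogpos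
    have h7 : (1 : ℝ) / Real.log x ≤ Real.exp (-(49 / 100) * LL x) := by
      rw [← hexp, one_div, ← Real.exp_neg]
      apply Real.exp_le_exp.2
      linarith
    calc ((x / 2 ^ B : ℕ) : ℝ) ≤ 2 * √(x : ℝ) := by linarith
      _ ≤ 4 * x * (1 / Real.log x) := by
        rw [mul_one_div, le_div_iff₀ hlogpos]
        nlinarith
      _ ≤ 4 * x * Real.exp (-(49 / 100) * LL x) := by
        apply mul_le_mul_of_nonneg_left h7
        positivity
  -- the main part
  have hmain : ∑ b ∈ range B, Nb (fun m => cnt 4 m ≤ padicValNat 2 (b + 1)) (x / 2 ^ b) ≤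
      C * S * Real.exp A * x * Real.exp (-(49 / 100) * LL x) := by
    have hterm : ∀ b ∈ range B, Nb (fun m => cnt 4 m ≤ padicValNat 2 (b + 1)) (x / 2 ^ b) ≤
        (C * Real.exp A * x * Real.exp (-(49 / 100) * LL x)) *
          (((b : ℝ) + 1) ^ 7 * (1 / 2 : ℝ) ^ b) := by
      intro b hb
      rw [mem_range, hB] at hb
      have h2b : 2 ^ b ≤ s := (Nat.pow_le_pow_right (by norm_num) (by omega)).trans
        (Nat.pow_log_le_self 2 (by omega))
      have hY : s ≤ x / 2 ^ b := by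
        rw [Nat.le_div_iff_mul_le (by positivity)]
        exact (Nat.mul_le_mul_left s h2b).trans hss
      have h1 := hRK (x / 2 ^ b) 4 (padicValNat 2 (b + 1)) (by omega) (by norm_num)
      refine h1.trans ?_
      have h2 : -(99 / 100) * RS 4 (x / 2 ^ b) ≤ A + -(49 / 100) * LL x := by
        have h3 := RS_mono (r := 4) hY
        rw [hA]
        linarith
      have h4 : Real.exp (-(99 / 100) * RS 4 (x / 2 ^ b)) ≤
          Real.exp A * Real.exp (-(49 / 100) * LL x) := by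
        rw [← Real.exp_add]
        exact Real.exp_le_exp.2 h2
      have h5 : ((x / 2 ^ b : ℕ) : ℝ) ≤ x * (1 / 2 : ℝ) ^ b := by
        refine Nat.cast_div_le.trans (le_of_eq ?_)
        push_cast
        rw [one_div, inv_pow]
        rfl
      have h6 := pow_val_le b
      calc C * 100 ^ padicValNat 2 (b + 1) * ((x / 2 ^ b : ℕ) : ℝ) *
            Real.exp (-(99 / 100) * RS 4 (x / 2 ^ b)) ≤
          C * ((b : ℝ) + 1) ^ 7 * (x * (1 / 2 : ℝ) ^ b) *
            (Real.exp A * Real.exp (-(49 / 100) * LL x)) := by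
            gcongr
        _ = _ := by ring
    refine (Finset.sum_le_sum hterm).trans ?_
    rw [← Finset.mul_sum]
    have h7 : ∑ b ∈ range B, (((b : ℝ) + 1) ^ 7 * (1 / 2 : ℝ) ^ b) ≤ S :=
      summ.sum_le_tsum _ (fun b _ => by positivity)
    calc (C * Real.exp A * x * Real.exp (-(49 / 100) * LL x)) *
          ∑ b ∈ range B, (((b : ℝ) + 1) ^ 7 * (1 / 2 : ℝ) ^ b) ≤
        (C * Real.exp A * x * Real.exp (-(49 / 100) * LL x)) * S :=
          mul_le_mul_of_nonneg_left h7 (by positivity)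
      _ = _ := by ring
  calc _ ≤ C * S * Real.exp A * x * Real.exp (-(49 / 100) * LL x) +
        4 * x * Real.exp (-(49 / 100) * LL x) := add_le_add hmain htail
    _ = (C * S * Real.exp A + 4) * x * Real.exp (-(49 / 100) * LL x) := by ring

end Pool.Agent.H606R4.NA
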