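import Pool.Agent.H295R3.NA.Stmts

/-! Tasks TW and TL of project H295-NA. -/

set_option autoImplicit false

open Finset Filter Topology

namespace Pool.Agent.H606R4.NA

open Pool.Agent.H295R3.NA

theorem card_mult (x d : ℕ) : ((Icc 1 x).filter (fun n => d ∣ n)).card = x / d := by
  have h := Nat.Ioc_filter_dvd_card_eq_div x d
  rwa [show Ioc 0 x = Icc 1 x by ext; simp [Nat.lt_iff_add_one_le]] at h

/-- if `l` divides the number of divisors then a `(l-1)`-th prime power divides `n` -/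
theorem exists_pow_dvd {l n : ℕ} (hl : l.Prime) (hn : n ≠ 0) (h : l ∣ dd n) :
    ∃ p : ℕ, p.Prime ∧ p ^ (l - 1) ∣ n := by
  unfold dd at h
  rw [Nat.card_divisors hn] at h
  obtain ⟨p, hp, hd⟩ := (Prime.dvd_finset_prod_iff hl.prime _).1 h
  refine ⟨p, Nat.prime_of_mem_primeFactors hp, ?_⟩
  have h1 : l ≤ n.factorization p + 1 := Nat.le_of_dvd (Nat.succ_pos _) hd
  exact (pow_dvd_pow p (by omega)).trans (Nat.ordProj_dvd n p)

theorem sum_inv_sq (x : ℕ) : ∑ p ∈ Icc 2 x, (4 : ℝ) / (p : ℝ) ^ 2 ≤ 4 := by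
  have key : ∀ x : ℕ, 1 ≤ x → ∑ p ∈ Icc 2 x, (4 : ℝ) / (p : ℝ) ^ 2 ≤ 4 - 4 / x := by
    intro x hx
    induction x, hx using Nat.le_induction with
    | base => simp
    | succ x hx ih =>
      rw [Finset.sum_Icc_succ_top (by omega)]
      have hx0 : (0 : ℝ) < x := by exact_mod_cast hx
      have : (4 : ℝ) / ((x + 1 : ℕ) : ℝ) ^ 2 ≤ 4 / x - 4 / ((x + 1 : ℕ) : ℝ) := by
        push_cast
        rw [div_sub_div _ _ hx0.ne' (by positivity), div_le_div_iff₀ (by positivity) (by positivity)]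
        nlinarith
      linarith
  rcases Nat.eq_zero_or_pos x with h | h
  · subst h; simp
  · refine (key x h).trans ?_
    have : (0 : ℝ) ≤ 4 / x := by positivity
    linarith

theorem taskTL : TaskTL := by
  intro x K hK
  unfold Nb
  classical
  have hsub : (Icc 1 x).filter (fun n => ∃ l : ℕ, l.Prime ∧ K < l ∧ Bad l n) ⊆
      (Icc 2 x).biUnion (fun p => (Icc 1 x).filter (fun n => p ^ K ∣ n)) := by
    intro n hn
    rw [mem_filter, mem_Icc] at hn
    obtain ⟨⟨h1, h2⟩, l, hl, hKl, hbad⟩ := hn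
    have hd : l ∣ dd n := by
      apply dvd_of_one_le_padicValNat
      unfold Bad at hbad
      omega
    obtain ⟨p, hp, hpn⟩ := exists_pow_dvd hl (by omega) hd
    have hpK : p ^ K ∣ n := (pow_dvd_pow p (by omega)).trans hpn
    rw [mem_biUnion]
    refine ⟨p, ?_, ?_⟩
    · rw [mem_Icc]
      refine ⟨hp.two_le, ?_⟩
      have : p ∣ n := (dvd_pow_self p (by omega)).trans hpK
      exact (Nat.le_of_dvd (by omega) this).trans h2
    · rw [mem_filter, mem_Icc]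
      exact ⟨⟨h1, h2⟩, hpK⟩
  have h1 : (((Icc 1 x).filter (fun n => ∃ l : ℕ, l.Prime ∧ K < l ∧ Bad l n)).card : ℝ) ≤
      ∑ p ∈ Icc 2 x, (x : ℝ) / 2 ^ K * (4 / (p : ℝ) ^ 2) := by
    have h2 := (card_le_card hsub).trans card_biUnion_le
    refine (Nat.cast_le.2 h2).trans ?_
    rw [Nat.cast_sum]
    apply Finset.sum_le_sum
    intro p hp
    rw [mem_Icc] at hp
    rw [card_mult]
    refine Nat.cast_div_le.trans ?_
    push_cast
    have hp2 : (2 : ℝ) ≤ p := by exact_mod_cast hp.1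
    have hp0 : (0 : ℝ) < p := by linarith
    obtain ⟨j, rfl⟩ : ∃ j, K = j + 2 := ⟨K - 2, by omega⟩
    have h3 : (2 : ℝ) ^ j ≤ (p : ℝ) ^ j := pow_le_pow_left₀ (by norm_num) hp2 j
    rw [div_mul_div_comm, div_le_div_iff₀ (by positivity) (by positivity)]
    have e1 : (2 : ℝ) ^ (j + 2) = 4 * 2 ^ j := by ring
    have e2 : (p : ℝ) ^ (j + 2) = p ^ j * p ^ 2 := by ring
    rw [e1, e2]
    have hx : (0 : ℝ) ≤ x := Nat.cast_nonneg x
    have h4 : (0 : ℝ) ≤ x * 4 * (p : ℝ) ^ 2 := by positivity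
    nlinarith [mul_le_mul_of_nonneg_left h3 h4]
  refine h1.trans ?_
  rw [← Finset.mul_sum]
  have h5 := sum_inv_sq x
  have hx : (0 : ℝ) ≤ (x : ℝ) / 2 ^ K := by positivity
  calc (x : ℝ) / 2 ^ K * ∑ p ∈ Icc 2 x, (4 : ℝ) / (p : ℝ) ^ 2 ≤ x / 2 ^ K * 4 :=
        mul_le_mul_of_nonneg_left h5 hx
    _ = 4 * x / 2 ^ K := by ring

end Pool.Agent.H606R4.NA
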